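import Pool.Agent.Helper47.RFn.CoreN

/-!
# Project RFn, C2: the fields `ed i` are derivations
-/

namespace Pool.Agent.Helper47.RFn

open Finset Topology

theorem sm_diffAt8 {n : ℕ} {f : EE n → ℝ} (hf : Sm f) {x : EE n} (hx : x ≠ 0) :
    DifferentiableAt ℝ f x :=
  (hf.cd.contDiffAt (isOpen_compl_singleton.mem_nhds hx)).differentiableAt (by simp)

theorem ed_of_fderiv8 {n : ℕ} (i : Fin (n + 1)) {f : EE n → ℝ} {x : EE n}
    {L : EE n →L[ℝ] ℝ} (h : x ≠ 0 → HasFDerivAt f L x) :
    ed i f x = ‖x‖ * L (EuclideanSpace.single i 1) := by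
  unfold ed pd
  by_cases hx : x = 0
  · rw [hx, norm_zero, zero_mul, zero_mul]
  · rw [(h hx).fderiv]

theorem goal_C2 (_hC1 : Goal_C1) : Goal_C2 := by
  intro n
  refine ⟨?_, ?_, ?_, ?_, ?_, ?_, ?_, ?_⟩
  · intro i c x
    rw [ed_of_fderiv8 i (fun _ => hasFDerivAt_const c x)]
    simp
  · intro i f h x hf hh
    refine (ed_of_fderiv8 i (f := fun y => f y + h y)
      (fun hx => (sm_diffAt8 hf hx).hasFDerivAt.add (sm_diffAt8 hh hx).hasFDerivAt)).trans ?_
    unfold ed pd
    rw [← mul_add]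
    rfl
  · intro i f h x hf hh
    refine (ed_of_fderiv8 i (f := fun y => f y - h y)
      (fun hx => (sm_diffAt8 hf hx).hasFDerivAt.sub (sm_diffAt8 hh hx).hasFDerivAt)).trans ?_
    unfold ed pd
    rw [← mul_sub]
    rfl
  · intro i f x
    unfold ed pd
    rw [fderiv_fun_neg]
    simp
  · intro i f h x hf hh
    refine (ed_of_fderiv8 i (f := fun y => f y * h y)
      (fun hx => (sm_diffAt8 hf hx).hasFDerivAt.mul (sm_diffAt8 hh hx).hasFDerivAt)).trans ?_
    unfold ed pd
    simp only [_root_.add_apply, _root_.smul_apply, smul_eq_mul]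
    ring
  · intro i c f x hf
    rw [ed_of_fderiv8 i (fun hx => (sm_diffAt8 hf hx).hasFDerivAt.const_mul c)]
    unfold ed pd
    simp only [_root_.smul_apply, smul_eq_mul]
    ring
  · intro ι s f i x hf
    rw [ed_of_fderiv8 i (fun hx => HasFDerivAt.fun_sum (u := s)
      fun a ha => (sm_diffAt8 (hf a ha) hx).hasFDerivAt)]
    unfold ed pd
    rw [← Finset.mul_sum, _root_.sum_apply]
  · intro i f F F' x hf hx hF
    refine (ed_of_fderiv8 i (f := fun y => F (f y))
      (fun hx => hF.comp_hasFDerivAt x (sm_diffAt8 hf hx).hasFDerivAt)).trans ?_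
    unfold ed pd
    simp only [_root_.smul_apply, smul_eq_mul]
    ring

end Pool.Agent.Helper47.RFn
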