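import Pool.Agent.Helper64.RFn.GoalsF

/-! Packet TRAn of project RFn (MP_c98eff_gt): divergence in terms of the connection. -/

open MeasureTheory Set Filter Topology

open scoped RealInnerProductSpace

namespace Pool.Agent.Helper8.RFn

open Pool.Agent.Helper64.RFn

variable {m : ℕ}

/-- The trace. -/
noncomputable abbrev tr (A : V m →L[ℝ] V m) : ℝ :=
  LinearMap.trace ℝ (V m) (A : V m →ₗ[ℝ] V m)

theorem tr_add (A B : V m →L[ℝ] V m) : tr (A + B) = tr A + tr B := by
  change LinearMap.trace ℝ (V m) ((A : V m →ₗ[ℝ] V m) + (B : V m →ₗ[ℝ] V m)) = _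
  rw [map_add]

theorem tr_sub (A B : V m →L[ℝ] V m) : tr (A - B) = tr A - tr B := by
  change LinearMap.trace ℝ (V m) ((A : V m →ₗ[ℝ] V m) - (B : V m →ₗ[ℝ] V m)) = _
  rw [map_sub]

theorem tr_smul (c : ℝ) (A : V m →L[ℝ] V m) : tr (c • A) = c * tr A := by
  change LinearMap.trace ℝ (V m) (c • (A : V m →ₗ[ℝ] V m)) = _
  rw [map_smul, smul_eq_mul]

theorem tr_comm (A B : V m →L[ℝ] V m) : tr (A.comp B) = tr (B.comp A) :=
  LinearMap.trace_mul_comm ℝ (A : V m →ₗ[ℝ] V m) (B : V m →ₗ[ℝ] V m)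

theorem tr_smulRight (c : V m →L[ℝ] ℝ) (z : V m) : tr (c.smulRight z) = c z := by
  have h := LinearMap.trace_eq_sum_inner ((c.smulRight z : V m →L[ℝ] V m) : V m →ₗ[ℝ] V m)
    (EuclideanSpace.basisFun (Fin m) ℝ)
  refine h.trans ?_
  have h2 : z = ∑ i, ⟪EuclideanSpace.basisFun (Fin m) ℝ i, z⟫ • EuclideanSpace.basisFun (Fin m) ℝ i :=
    ((EuclideanSpace.basisFun (Fin m) ℝ).sum_repr' z).symm
  conv_rhs => rw [h2]
  rw [map_sum]
  refine Finset.sum_congr rfl fun i _ => ?_
  rw [map_smul, smul_eq_mul]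
  change ⟪_, c _ • z⟫ = _
  rw [inner_smul_right, mul_comm]

theorem tr_skew (A : V m →L[ℝ] V m) (h : ∀ a b, ⟪A a, b⟫ = - ⟪a, A b⟫) : tr A = 0 := by
  have h1 := LinearMap.trace_eq_sum_inner (A : V m →ₗ[ℝ] V m) (EuclideanSpace.basisFun (Fin m) ℝ)
  rw [tr, h1]
  refine Finset.sum_eq_zero fun i _ => ?_
  have h2 := h (EuclideanSpace.basisFun (Fin m) ℝ i) (EuclideanSpace.basisFun (Fin m) ℝ i)
  rw [real_inner_comm] at h2
  change ⟪_, A _⟫ = _
  linarith

theorem contDiff_det : ContDiff ℝ 1 (fun A : V m →L[ℝ] V m => A.det) := by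
  let e := (EuclideanSpace.basisFun (Fin m) ℝ).toBasis
  have h : (fun A : V m →L[ℝ] V m => A.det) =
      fun A => Matrix.det (Matrix.of fun i j => e.coord i (A (e j))) := by
    ext A
    rw [ContinuousLinearMap.det, ← LinearMap.det_toMatrix e]
    congr 1
    ext i j
    rw [LinearMap.toMatrix_apply]
    rfl
  rw [h]
  simp only [Matrix.det_apply]
  refine ContDiff.sum fun σ _ => ContDiff.const_smul _ (contDiff_prod fun i _ => ?_)
  exact ((LinearMap.toContinuousLinearMap (e.coord (σ i))).comp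
    (ContinuousLinearMap.apply ℝ (V m) (e i))).contDiff

/-- The derivative of the determinant at the identity is the trace. -/
theorem det_one : ∃ L : (V m →L[ℝ] V m) →L[ℝ] ℝ,
    HasFDerivAt (fun A : V m →L[ℝ] V m => A.det) L (ContinuousLinearMap.id ℝ (V m)) ∧
    ∀ E : V m →L[ℝ] V m, L E = tr E := by
  have hL := ((contDiff_det (m := m)).differentiable (by simp)
    (ContinuousLinearMap.id ℝ (V m))).hasFDerivAt
  refine ⟨_, hL, fun E => ?_⟩
  set L := fderiv ℝ (fun A : V m →L[ℝ] V m => A.det) (ContinuousLinearMap.id ℝ (V m))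
  let e := (EuclideanSpace.basisFun (Fin m) ℝ).toBasis
  set M : Matrix (Fin m) (Fin m) ℝ := LinearMap.toMatrix e e (E : V m →ₗ[ℝ] V m) with hM
  have h1 : HasDerivAt (fun r : ℝ => (ContinuousLinearMap.id ℝ (V m) + r • E).det) (L E) 0 := by
    have h2 : HasDerivAt (fun r : ℝ => ContinuousLinearMap.id ℝ (V m) + r • E)
        ((1 : ℝ) • E) 0 := ((hasDerivAt_id (0 : ℝ)).smul_const E).const_add _
    rw [one_smul] at h2
    have hL' : HasFDerivAt (fun A : V m →L[ℝ] V m => A.det) L
        (ContinuousLinearMap.id ℝ (V m) + (0 : ℝ) • E) := by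
      have e0 : ContinuousLinearMap.id ℝ (V m) + (0 : ℝ) • E =
          ContinuousLinearMap.id ℝ (V m) := by
        ext
        simp
      rw [e0]
      exact hL
    exact hL'.comp_hasDerivAt (0 : ℝ) h2
  have h3 : ∀ r : ℝ, (ContinuousLinearMap.id ℝ (V m) + r • E).det = (1 + r • M).det := by
    intro r
    rw [ContinuousLinearMap.det, ← LinearMap.det_toMatrix e, hM]
    congr 1
    have : ((ContinuousLinearMap.id ℝ (V m) + r • E : V m →L[ℝ] V m) : V m →ₗ[ℝ] V m) =
        LinearMap.id + r • (E : V m →ₗ[ℝ] V m) := rfl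
    rw [this, map_add, map_smul, LinearMap.toMatrix_id]
  set q := (Matrix.det (1 + (Polynomial.X : Polynomial ℝ) • M.map Polynomial.C)).divX.divX with hq
  have h4 : HasDerivAt (fun r : ℝ => 1 + M.trace * r + q.eval r * r ^ 2) M.trace 0 := by
    have e1 : HasDerivAt (fun r : ℝ => 1 + M.trace * r) M.trace 0 := by
      have := ((hasDerivAt_id (0 : ℝ)).const_mul M.trace).const_add 1
      simpa using this
    have e2 : HasDerivAt (fun r : ℝ => q.eval r * r ^ 2) 0 0 := by
      have e3 : HasDerivAt (fun r : ℝ => r ^ 2) ((2 : ℕ) * (0 : ℝ) ^ (2 - 1)) 0 :=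
        hasDerivAt_pow 2 (0 : ℝ)
      have e4 := (q.hasDerivAt (0 : ℝ)).mul e3
      have e5 : Polynomial.eval 0 (Polynomial.derivative q) * (0 : ℝ) ^ 2 +
          Polynomial.eval 0 q * ((2 : ℕ) * (0 : ℝ) ^ (2 - 1)) = 0 := by simp
      rw [e5] at e4
      exact e4
    have := e1.add e2
    rw [add_zero] at this
    exact this
  have h5 : (fun r : ℝ => (ContinuousLinearMap.id ℝ (V m) + r • E).det) =
      fun r : ℝ => 1 + M.trace * r + q.eval r * r ^ 2 := by
    funext r
    rw [h3, Matrix.det_one_add_smul]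
  rw [h5] at h1
  rw [h1.unique h4, tr, LinearMap.trace_eq_matrix_trace ℝ e]

/-- Jacobi's formula. -/
theorem det_fderiv (A Ai : V m →L[ℝ] V m) (h1 : A.comp Ai = ContinuousLinearMap.id ℝ (V m))
    (h2 : Ai.comp A = ContinuousLinearMap.id ℝ (V m)) : ∃ L : (V m →L[ℝ] V m) →L[ℝ] ℝ,
    HasFDerivAt (fun A : V m →L[ℝ] V m => A.det) L A ∧
    ∀ E : V m →L[ℝ] V m, L E = A.det * tr (Ai.comp E) := by
  obtain ⟨L, hL, hL2⟩ := det_one (m := m)
  have hmul : ∀ X Y : V m →L[ℝ] V m, (X.comp Y).det = X.det * Y.det := fun X Y =>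
    LinearMap.det_comp (X : V m →ₗ[ℝ] V m) (Y : V m →ₗ[ℝ] V m)
  have hid : (ContinuousLinearMap.id ℝ (V m)).det = 1 := by
    simp [ContinuousLinearMap.det]
  have hd : A.det * Ai.det = 1 := by rw [← hmul, h1, hid]
  set G : (V m →L[ℝ] V m) →L[ℝ] (V m →L[ℝ] V m) :=
    ContinuousLinearMap.compL ℝ (V m) (V m) (V m) Ai with hG
  have hGA : G A = ContinuousLinearMap.id ℝ (V m) := h2
  have hL' : HasFDerivAt (fun A : V m →L[ℝ] V m => A.det) L (G A) := by
    rw [hGA]
    exact hL
  have h3 := (hL'.comp A G.hasFDerivAt).const_mul A.det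
  have h4 : (fun H : V m →L[ℝ] V m => A.det * ((fun A : V m →L[ℝ] V m => A.det) ∘ G) H) =
      fun H => H.det := by
    funext H
    change A.det * (Ai.comp H).det = _
    rw [hmul, ← mul_assoc, hd, one_mul]
  rw [h4] at h3
  refine ⟨_, h3, fun E => ?_⟩
  change A.det * L (Ai.comp E) = _
  rw [hL2]

theorem tran : TRAn := by
  intro m T B hC hinj Z z S x hx hZ hev hS
  -- T is differentiable at x, invertible near x
  have hx' : ({0}ᶜ : Set (V m)) ∈ 𝓝 x := isOpen_compl_singleton.mem_nhds hx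
  have hT : DifferentiableAt ℝ T x := (hC.smT.contDiffAt hx').differentiableAt (by simp)
  have hunit : ∀ y, y ≠ 0 → IsUnit (T y) := by
    intro y hy
    rw [ContinuousLinearMap.isUnit_iff_bijective]
    have hi : Function.Injective (T y : V m →ₗ[ℝ] V m) := by
      rw [injective_iff_map_eq_zero]
      intro v hv
      exact hinj y hy v hv
    exact ⟨hi, LinearMap.injective_iff_surjective.mp hi⟩
  set Ti : V m →L[ℝ] V m := Ring.inverse (T x) with hTi
  have h1 : (T x).comp Ti = ContinuousLinearMap.id ℝ (V m) := Ring.mul_inverse_cancel _ (hunit x hx)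
  have h2 : Ti.comp (T x) = ContinuousLinearMap.id ℝ (V m) := Ring.inverse_mul_cancel _ (hunit x hx)
  have h1' : ∀ v, T x (Ti v) = v := fun v => DFunLike.congr_fun h1 v
  have h2' : ∀ v, Ti (T x v) = v := fun v => DFunLike.congr_fun h2 v
  -- z is differentiable at x
  have hz : DifferentiableAt ℝ z x := by
    have hd : DifferentiableAt ℝ (fun y => Ring.inverse (T y) (Z y)) x := by
      have h3 : DifferentiableAt ℝ (fun y => Ring.inverse (T y)) x :=
        (differentiableAt_inverse (𝕜 := ℝ) (hunit x hx)).comp x hT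
      exact h3.clm_apply hZ
    refine hd.congr_of_eventuallyEq ?_
    filter_upwards [hev, hx'] with y hy hy0
    rw [← hy]
    exact (DFunLike.congr_fun (Ring.inverse_mul_cancel _ (hunit y hy0)) (z y)).symm
  have hZx : T x (z x) = Z x := hev.self_of_nhds
  -- derivative of the equation
  have hder : ∀ v, T x (fderiv ℝ z x v) = fderiv ℝ Z x v - fderiv ℝ T x v (z x) := by
    intro v
    have h3 : HasFDerivAt (fun y => T y (z y)) _ x := hT.hasFDerivAt.clm_apply hz.hasFDerivAt
    have h4 : HasFDerivAt Z _ x := h3.congr_of_eventuallyEq (hev.mono fun y hy => hy.symm)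
    rw [h4.fderiv]
    simp
  -- derivative of |det T|
  obtain ⟨L, hL, hLE⟩ := det_fderiv (T x) Ti h1 h2
  have hdet0 : (T x).det ≠ 0 := by
    intro h0
    have h3 : ((T x).comp Ti).det = (T x).det * Ti.det :=
      LinearMap.det_comp (T x : V m →ₗ[ℝ] V m) (Ti : V m →ₗ[ℝ] V m)
    rw [h1, h0, zero_mul] at h3
    simp [ContinuousLinearMap.det] at h3
  have habs : HasFDerivAt (fun y => |(T y).det|)
      ((SignType.sign (T x).det : ℝ) • (L.comp (fderiv ℝ T x))) x := by
    have h0 : HasFDerivAt (fun y => (T y).det) (L.comp (fderiv ℝ T x)) x :=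
      hL.comp x hT.hasFDerivAt
    exact (hasDerivAt_abs hdet0).comp_hasFDerivAt x h0
  set c' : V m →L[ℝ] ℝ := (SignType.sign (T x).det : ℝ) • (L.comp (fderiv ℝ T x)) with hc'
  have hc'v : ∀ v, c' v = |(T x).det| * tr (Ti.comp (fderiv ℝ T x v)) := by
    intro v
    change (SignType.sign (T x).det : ℝ) * L (fderiv ℝ T x v) = _
    rw [hLE, ← mul_assoc, sign_mul_self]
  have hW : HasFDerivAt (fun y => |(T y).det| • z y)
      (|(T x).det| • fderiv ℝ z x + c'.smulRight (z x)) x := habs.smul hz.hasFDerivAt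
  refine ⟨hW.differentiableAt, ?_⟩
  rw [hW.fderiv]
  change tr _ = _ * tr S
  rw [tr_add, tr_smul, tr_smulRight, hc'v, ← mul_add, ← tr_add]
  congr 1
  have key : fderiv ℝ z x + Ti.comp (fderiv ℝ T x (z x)) = S - Ti.comp ((B x (z x)).comp (T x)) := by
    ext1 v
    have e1 := hC.tors x hx v (z x)
    have e2 := hder v
    have e3 := hS v
    rw [hZx] at e1
    have e4 : T x (fderiv ℝ z x v + Ti (fderiv ℝ T x (z x) v)) =
        T x (S v - Ti (B x (z x) (T x v))) := by
      rw [map_add, map_sub, h1', h1', e2, e3]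
      rw [sub_add_eq_add_sub, sub_eq_iff_eq_add]
      have e5 : fderiv ℝ T x v (z x) + B x v (Z x) =
          fderiv ℝ T x (z x) v + B x (z x) (T x v) := by
        rw [← sub_eq_zero, ← e1]
        abel
      calc fderiv ℝ Z x v + fderiv ℝ T x (z x) v
          = fderiv ℝ Z x v + (fderiv ℝ T x (z x) v + B x (z x) (T x v)) - B x (z x) (T x v) := by
            abel
        _ = fderiv ℝ Z x v + B x v (Z x) - B x (z x) (T x v) + fderiv ℝ T x v (z x) := by
            rw [← e5]
            abel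
    have e6 := congrArg Ti e4
    rw [h2', h2'] at e6
    exact e6
  rw [key, tr_sub]
  have h0 : tr (Ti.comp ((B x (z x)).comp (T x))) = 0 := by
    rw [tr_comm, ContinuousLinearMap.comp_assoc, h1, ContinuousLinearMap.comp_id]
    exact tr_skew _ (hC.skew x hx (z x))
  rw [h0, sub_zero]

end Pool.Agent.Helper8.RFn
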