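import Pool.Agent.Helper19.RFn.GoalsM

/-! # Project RFn, packet M-SHF: shift in time and restriction -/

set_option autoImplicit false

open Finset Pool.Agent.Helper47.RFn Pool.Agent.Helper73.RFn Pool.Agent.Helper19.RFn

namespace Pool.Agent.Helper8.RFn

theorem smFam_mono {n : ℕ} {I J : Set ℝ} (hJ : J ⊆ I) {f : ℝ → EE n → ℝ} (h : SmFam I f) : SmFam J f :=
  ⟨fun t ht => h.sm t (hJ ht), fun w => (h.cont w).mono (Set.prod_mono hJ le_rfl)⟩

theorem smFam1_mono {n : ℕ} {I J : Set ℝ} (hJ : J ⊆ I) {f f' : ℝ → EE n → ℝ} (h : SmFam1 I f f') :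
    SmFam1 J f f' :=
  ⟨smFam_mono hJ h.fam, smFam_mono hJ h.fam', fun w x hx t ht => (h.der w x hx t (hJ ht)).mono hJ⟩

theorem smFam_shift {n : ℕ} {I J : Set ℝ} (t0 : ℝ) (hJ : ∀ t ∈ J, t0 + t ∈ I) {f : ℝ → EE n → ℝ}
    (h : SmFam I f) : SmFam J (fun t => f (t0 + t)) := by
  refine ⟨fun t ht => h.sm _ (hJ t ht), fun w => ?_⟩
  have h1 : ContinuousOn (fun p : ℝ × EE n => ((t0 + p.1, p.2) : ℝ × EE n)) (J ×ˢ {0}ᶜ) := by
    fun_prop
  exact (h.cont w).comp h1 (fun p hp => ⟨hJ _ hp.1, hp.2⟩)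

theorem smFam1_shift {n : ℕ} {I J : Set ℝ} (t0 : ℝ) (hJ : ∀ t ∈ J, t0 + t ∈ I) {f f' : ℝ → EE n → ℝ}
    (h : SmFam1 I f f') : SmFam1 J (fun t => f (t0 + t)) (fun t => f' (t0 + t)) := by
  refine ⟨smFam_shift t0 hJ h.fam, smFam_shift t0 hJ h.fam', fun w x hx t ht => ?_⟩
  have h1 := h.der w x hx (t0 + t) (hJ t ht)
  have h2 : HasDerivWithinAt (fun s : ℝ => t0 + s) 1 J t := ((hasDerivAt_id t).const_add t0).hasDerivWithinAt
  have h3 := HasDerivWithinAt.comp t (h₂ := fun s => Ew w (f s) x) (h := fun s : ℝ => t0 + s) h1 h2 hJ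
  rw [mul_one] at h3
  exact h3

theorem shf : ShfStmt := by
  intro n A θ u I J
  refine ⟨fun hJ h => ?_, fun hJ h => smFam1_mono hJ h, fun t0 hJ h => ?_⟩
  · exact ⟨fun t ht => h.inv t (hJ ht), fun t ht => h.nA t (hJ ht), fun a i => smFam1_mono hJ (h.flA a i),
      fun i a => smFam1_mono hJ (h.flt i a)⟩
  · exact ⟨fun t ht => h.inv _ (hJ t ht), fun t ht => h.nA _ (hJ t ht),
      fun a i => smFam1_shift t0 hJ (h.flA a i), fun i a => smFam1_shift t0 hJ (h.flt i a)⟩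

end Pool.Agent.Helper8.RFn
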