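import Pool.Agent.Helper47.RFn.GoalsE

/-! # Project RFn, packet LNK: the formulas of `FR` in the algebra are those of `FlowN` -/

set_option autoImplicit false

open Finset Pool.Agent.Helper47.RFn

namespace Pool.Agent.Helper8.RFn.LNK

/-- an element of the algebra which is given by a family -/
structure Rep {n : ℕ} {T : ℝ} (M : Mod n T) (f : M.B) (u : ℝ → EE n → ℝ) : Prop where
  js : JS T u
  eq : ∀ z (t : TI T), M.ev z t f = u t (M.pt z)

section rep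

variable {n : ℕ} {T : ℝ} {M : Mod n T} {f g : M.B} {u v : ℝ → EE n → ℝ}

theorem Rep.emb_eq (hEM : Goal_EM) (hT : 0 < T) (hM : M.Ax) (h : Rep M f u) : f = M.em u :=
  (hEM n T hT M hM).2.1 f u h.js h.eq

theorem rep_em (hEM : Goal_EM) (hT : 0 < T) (hM : M.Ax) (hu : JS T u) : Rep M (M.em u) u :=
  ⟨hu, ((hEM n T hT M hM).1 u hu).2⟩

theorem Rep.mul (hf : Rep M f u) (hg : Rep M g v) : Rep M (f * g) (fun t x => u t x * v t x) := by
  refine ⟨⟨hf.js.cd.mul hg.js.cd, fun t h1 h2 r x hr => ?_⟩, fun z t => ?_⟩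
  · show u t (r • x) * v t (r • x) = u t x * v t x
    rw [hf.js.hom t h1 h2 r x hr, hg.js.hom t h1 h2 r x hr]
  · rw [map_mul, hf.eq, hg.eq]

theorem Rep.add (hf : Rep M f u) (hg : Rep M g v) : Rep M (f + g) (fun t x => u t x + v t x) := by
  refine ⟨⟨hf.js.cd.add hg.js.cd, fun t h1 h2 r x hr => ?_⟩, fun z t => ?_⟩
  · show u t (r • x) + v t (r • x) = u t x + v t x
    rw [hf.js.hom t h1 h2 r x hr, hg.js.hom t h1 h2 r x hr]
  · rw [map_add, hf.eq, hg.eq]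

theorem Rep.sub (hf : Rep M f u) (hg : Rep M g v) : Rep M (f - g) (fun t x => u t x - v t x) := by
  refine ⟨⟨hf.js.cd.sub hg.js.cd, fun t h1 h2 r x hr => ?_⟩, fun z t => ?_⟩
  · show u t (r • x) - v t (r • x) = u t x - v t x
    rw [hf.js.hom t h1 h2 r x hr, hg.js.hom t h1 h2 r x hr]
  · rw [map_sub, hf.eq, hg.eq]

theorem Rep.neg (hf : Rep M f u) : Rep M (-f) (fun t x => - u t x) := by
  refine ⟨⟨hf.js.cd.neg, fun t h1 h2 r x hr => ?_⟩, fun z t => ?_⟩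
  · show - u t (r • x) = - u t x
    rw [hf.js.hom t h1 h2 r x hr]
  · rw [map_neg, hf.eq]

theorem Rep.smul (c : ℝ) (hf : Rep M f u) : Rep M (c • f) (fun t x => c * u t x) := by
  refine ⟨⟨contDiffOn_const.mul hf.js.cd, fun t h1 h2 r x hr => ?_⟩, fun z t => ?_⟩
  · show c * u t (r • x) = c * u t x
    rw [hf.js.hom t h1 h2 r x hr]
  · rw [map_smul, hf.eq, smul_eq_mul]

theorem rep_zero : Rep M (0 : M.B) (fun _ _ => 0) :=
  ⟨⟨contDiffOn_const, fun _ _ _ _ _ _ => rfl⟩, fun _ _ => map_zero _⟩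

theorem rep_one : Rep M (1 : M.B) (fun _ _ => 1) :=
  ⟨⟨contDiffOn_const, fun _ _ _ _ _ _ => rfl⟩, fun _ _ => map_one _⟩

theorem rep_ite (p : Prop) [Decidable p] : Rep M (if p then (1 : M.B) else 0) (fun _ _ => if p then 1 else 0) := by
  split_ifs
  · exact rep_one
  · exact rep_zero

theorem Rep.sum {ι : Type} (s : Finset ι) {f : ι → M.B} {u : ι → ℝ → EE n → ℝ}
    (h : ∀ i ∈ s, Rep M (f i) (u i)) : Rep M (∑ i ∈ s, f i) (fun t x => ∑ i ∈ s, u i t x) := by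
  classical
  induction s using Finset.induction_on with
  | empty => simpa using rep_zero
  | insert a s ha ih =>
    rw [sum_insert ha]
    simp only [sum_insert ha]
    exact (h a (mem_insert_self a s)).add (ih fun i hi => h i (mem_insert_of_mem hi))

theorem Rep.ed (hEM : Goal_EM) (hT : 0 < T) (hM : M.Ax) (hf : Rep M f u) (i : Ix n) :
    Rep M (M.e i f) (fun t => Pool.Agent.Helper47.RFn.ed i (u t)) := by
  obtain ⟨hE, he, -⟩ := (hEM n T hT M hM).2.2.1 u hf.js i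
  rw [hf.emb_eq hEM hT hM, he]
  exact rep_em hEM hT hM hE

theorem rep_n0 (hC1 : Goal_C1) (hM : M.Ax) (i : Ix n) : Rep M (M.n0 i) (fun _ => nn i) := by
  have h : Sm (nn i : EE n → ℝ) := (hC1 n).2.2.2.2.2.2.2.2.2.2.2 i
  refine ⟨⟨h.cd.comp contDiff_fst.contDiffOn (fun p hp => hp.1), fun t _ _ => h.hom⟩, fun z t => ?_⟩
  exact hM.nev z t i

end rep

section main

variable {n : ℕ} {T : ℝ} {M : Mod n T} {A θ : ℝ → MF n} {f : M.B} {u : ℝ → EE n → ℝ}

theorem rep_M (hEM : Goal_EM) (hT : 0 < T) (hM : M.Ax) (hA : MJ T A) (i j : Ix n) :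
    Rep M (M.emM A i j) (fun t x => A t x i j) := rep_em hEM hT hM (hA i j)

theorem rep_nf (hEM : Goal_EM) (hC1 : Goal_C1) (hT : 0 < T) (hM : M.Ax) (hA : MJ T A) (a : Ix n) :
    Rep M (FR.nf M.n0 (M.emM A) a) (fun t => nfc (A t) a) := by
  unfold FR.nf
  exact Rep.sum univ fun i _ => (rep_M hEM hT hM hA a i).mul (rep_n0 hC1 hM i)

theorem rep_Fd (hEM : Goal_EM) (hT : 0 < T) (hM : M.Ax) (hA : MJ T A) (a : Ix n) (hf : Rep M f u) :
    Rep M (FR.Fd M.e (M.emM A) a f) (fun t => Fdc (A t) a (u t)) := by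
  unfold FR.Fd
  exact Rep.sum univ fun i _ => (rep_M hEM hT hM hA a i).mul (hf.ed hEM hT hM i)

theorem rep_C (hEM : Goal_EM) (hC1 : Goal_C1) (hT : 0 < T) (hM : M.Ax) (hA : MJ T A) (ht : MJ T θ) (a b c : Ix n) :
    Rep M (FR.C M.e M.n0 (M.emM A) (M.emM θ) a b c) (fun t => Cc (A t) (θ t) a b c) := by
  unfold FR.C
  exact (Rep.sum univ fun j _ => ((rep_Fd hEM hT hM hA a (rep_M hEM hT hM hA b j)).sub
    (rep_Fd hEM hT hM hA b (rep_M hEM hT hM hA a j))).mul (rep_M hEM hT hM ht j c)).add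
    (((rep_nf hEM hC1 hT hM hA a).mul (rep_ite (b = c))).sub ((rep_nf hEM hC1 hT hM hA b).mul (rep_ite (a = c))))

theorem rep_Gam (hEM : Goal_EM) (hC1 : Goal_C1) (hT : 0 < T) (hM : M.Ax) (hA : MJ T A) (ht : MJ T θ) (a b c : Ix n) :
    Rep M (FR.Gam M.e M.n0 (M.emM A) (M.emM θ) a b c) (fun t => Gamc (A t) (θ t) a b c) := by
  have h := fun a b c => rep_C hEM hC1 hT hM hA ht a b c
  unfold FR.Gam
  exact (((h a b c).sub (h b c a)).add (h c a b)).smul (1 / 2)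

theorem rep_K (hEM : Goal_EM) (hC1 : Goal_C1) (hT : 0 < T) (hM : M.Ax) (hA : MJ T A) (ht : MJ T θ) (a b c d : Ix n) :
    Rep M (FR.K M.e M.n0 (M.emM A) (M.emM θ) a b c d) (fun t => Kf (A t) (θ t) a b c d) := by
  have h := fun a b c => rep_Gam hEM hC1 hT hM hA ht a b c
  have hC := fun a b c => rep_C hEM hC1 hT hM hA ht a b c
  unfold FR.K
  exact (((rep_Fd hEM hT hM hA a (h b c d)).sub (rep_Fd hEM hT hM hA b (h a c d))).add
    (Rep.sum univ fun f _ => ((h b c f).mul (h a f d)).sub ((h a c f).mul (h b f d)))).sub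
    (Rep.sum univ fun f _ => (hC a b f).mul (h f c d))

theorem rep_R (hEM : Goal_EM) (hC1 : Goal_C1) (hT : 0 < T) (hM : M.Ax) (hA : MJ T A) (ht : MJ T θ) (a b c d : Ix n) :
    Rep M (FR.R M.e M.n0 (M.emM A) (M.emM θ) a b c d) (fun t => Rf (A t) (θ t) a b c d) :=
  (rep_K hEM hC1 hT hM hA ht a b c d).neg

theorem rep_Rc (hEM : Goal_EM) (hC1 : Goal_C1) (hT : 0 < T) (hM : M.Ax) (hA : MJ T A) (ht : MJ T θ) (a c : Ix n) :
    Rep M (FR.Rc M.e M.n0 (M.emM A) (M.emM θ) a c) (fun t => Rcf (A t) (θ t) a c) := by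
  unfold FR.Rc
  exact Rep.sum univ fun b _ => rep_R hEM hC1 hT hM hA ht a b c b

end main

end Pool.Agent.Helper8.RFn.LNK

namespace Pool.Agent.Helper47.RFn

open Pool.Agent.Helper8.RFn.LNK

theorem goal_LNK (hEM : Goal_EM) (hC1 : Goal_C1) (_hC2 : Goal_C2) : Goal_LNK := by
  intro n T hT M hM A θ hA ht
  refine ⟨fun a => ?_, fun a b c => ?_, fun a b c => ?_, fun a b c d => ?_, fun a b => ?_, fun a v hv => ?_⟩
  · have h := rep_nf hEM hC1 hT hM hA a
    exact ⟨h.js, h.emb_eq hEM hT hM⟩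
  · have h := rep_C hEM hC1 hT hM hA ht a b c
    exact ⟨h.js, h.emb_eq hEM hT hM⟩
  · have h := rep_Gam hEM hC1 hT hM hA ht a b c
    exact ⟨h.js, h.emb_eq hEM hT hM⟩
  · have h := rep_R hEM hC1 hT hM hA ht a b c d
    exact ⟨h.js, h.emb_eq hEM hT hM⟩
  · have h := rep_Rc hEM hC1 hT hM hA ht a b
    exact ⟨h.js, h.emb_eq hEM hT hM⟩
  · have h := rep_Fd hEM hT hM hA a (rep_em hEM hT hM hv)
    exact ⟨h.js, h.emb_eq hEM hT hM⟩

end Pool.Agent.Helper47.RFn
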