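import Pool.Agent.Helper64.RFn.GoalsL

/-! Packet CHRn of project RFn (MP_c98eff_gt): Christoffel symbols of the cone metric. -/

open MeasureTheory Set Matrix Filter Topology

open scoped RealInnerProductSpace

namespace Pool.Agent.Helper8.RFn

open Pool.Agent.Helper64.RFn
open Pool.Agent.Helper47.RFn (EE MF pd Hom0 Sm IsMetric cyl Chr Rup Rm ip gvol Goal_C6)

variable {n : ℕ}

theorem compl_nhds {x : EE n} (hx : x ≠ 0) : ({0}ᶜ : Set (EE n)) ∈ 𝓝 x :=
  isOpen_compl_singleton.mem_nhds hx

theorem sm_diff {f : EE n → ℝ} (hf : Sm f) {x : EE n} (hx : x ≠ 0) : DifferentiableAt ℝ f x :=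
  (hf.cd.contDiffAt (compl_nhds hx)).differentiableAt (by simp)

theorem pd_cd {f : EE n → ℝ} (hf : Sm f) (i : Fin (n + 1)) :
    ContDiffOn ℝ (⊤ : ℕ∞) (pd i f) {0}ᶜ := by
  have h1 : ContDiffOn ℝ (⊤ : ℕ∞) (fderiv ℝ f) {0}ᶜ :=
    hf.cd.fderiv_of_isOpen isOpen_compl_singleton (by simp)
  exact h1.clm_apply contDiffOn_const

/-- the derivative of a homogeneous function -/
theorem pd_smul {f : EE n → ℝ} (hf : Sm f) (i : Fin (n + 1)) {r : ℝ} (hr : 0 < r) {x : EE n}
    (hx : x ≠ 0) : pd i f (r • x) = r⁻¹ * pd i f x := by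
  have h1 : HasFDerivAt f (fderiv ℝ f x) (r⁻¹ • (r • x)) := by
    rw [smul_smul, inv_mul_cancel₀ hr.ne', one_smul]
    exact (sm_diff hf hx).hasFDerivAt
  have h2 : HasFDerivAt (fun y : EE n => r⁻¹ • y) (r⁻¹ • ContinuousLinearMap.id ℝ (EE n))
      (r • x) := (hasFDerivAt_id (r • x)).const_smul r⁻¹
  have h3 : HasFDerivAt (fun y => f (r⁻¹ • y)) ((fderiv ℝ f x).comp
      (r⁻¹ • ContinuousLinearMap.id ℝ (EE n))) (r • x) := h1.comp (r • x) h2
  have h4 : (fun y => f (r⁻¹ • y)) = f := by
    funext y
    exact hf.hom r⁻¹ y (inv_pos.mpr hr)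
  rw [h4] at h3
  unfold pd
  rw [h3.fderiv]
  simp

/-- the differential in coordinates -/
theorem fderiv_sum (f : EE n → ℝ) (x v : EE n) : fderiv ℝ f x v = ∑ i, v i * pd i f x := by
  have h : v = ∑ i, v i • EuclideanSpace.single i (1 : ℝ) := by
    ext j
    simp [Finset.sum_apply, Pi.single_apply]
  conv_lhs => rw [h]
  rw [map_sum]
  refine Finset.sum_congr rfl fun i _ => ?_
  rw [map_smul, smul_eq_mul]
  rfl

/-- Euler's relation -/
theorem euler {f : EE n → ℝ} (hf : Sm f) {x : EE n} (hx : x ≠ 0) : ∑ i, x i * pd i f x = 0 := by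
  rw [← fderiv_sum]
  have h1 : HasFDerivAt f (fderiv ℝ f x) ((1 : ℝ) • x) := by
    rw [one_smul]
    exact (sm_diff hf hx).hasFDerivAt
  have h2 : HasDerivAt (fun t : ℝ => t • x) x 1 := by
    have := (hasDerivAt_id (1 : ℝ)).smul_const x
    simpa using this
  have h3 : HasDerivAt (fun t : ℝ => f (t • x)) (fderiv ℝ f x x) 1 := h1.comp_hasDerivAt 1 h2
  have h4 : (fun t : ℝ => f (t • x)) =ᶠ[𝓝 1] fun _ => f x := by
    filter_upwards [lt_mem_nhds (zero_lt_one : (0:ℝ) < 1)] with t ht
    exact hf.hom t x ht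
  exact (h3.congr_of_eventuallyEq h4.symm).unique (hasDerivAt_const 1 (f x))

section metric

variable {G : MF n} (hG : IsMetric G)

include hG

theorem g_symm (x : EE n) (i j : Fin (n + 1)) : G x i j = G x j i := by
  have h := (hG.pos x).isHermitian.apply j i
  simpa using h

theorem g_symm' (i j : Fin (n + 1)) : (fun x => G x i j) = fun x => G x j i :=
  funext fun x => g_symm hG x i j

/-- derivative of `G x = x` -/
theorem rad_der (i l : Fin (n + 1)) {x : EE n} (hx : x ≠ 0) :
    ∑ j, x j * pd i (fun y => G y j l) x = (if i = l then 1 else 0) - G x i l := by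
  have h1 : ∀ j, HasFDerivAt (fun y : EE n => G y l j * y j) (G x l j •
      (EuclideanSpace.proj j : EE n →L[ℝ] ℝ) + x j • fderiv ℝ (fun y => G y l j) x) x := by
    intro j
    exact (sm_diff (hG.sm l j) hx).hasFDerivAt.mul
      (EuclideanSpace.proj j : EE n →L[ℝ] ℝ).hasFDerivAt
  have h2 := HasFDerivAt.fun_sum (u := Finset.univ) fun j _ => h1 j
  have h3 : (fun y : EE n => ∑ j, G y l j * y j) = fun y => y l := funext fun y => hG.rad y l
  rw [h3] at h2
  have h4 : HasFDerivAt (fun y : EE n => y l) (EuclideanSpace.proj l : EE n →L[ℝ] ℝ) x :=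
    (EuclideanSpace.proj l : EE n →L[ℝ] ℝ).hasFDerivAt
  have h5 := congrArg (fun L : EE n →L[ℝ] ℝ => L (EuclideanSpace.single i 1)) (h2.unique h4)
  have hproj : ∀ j, (EuclideanSpace.proj j : EE n →L[ℝ] ℝ) (EuclideanSpace.single i 1) =
      if j = i then 1 else 0 := by
    intro j
    change (EuclideanSpace.single i (1:ℝ) : EE n) j = _
    simp
  simp only [_root_.sum_apply, _root_.add_apply, _root_.smul_apply, hproj, smul_eq_mul] at h5
  rw [Finset.sum_add_distrib] at h5
  have h6 : ∑ j, G x l j * (if j = i then (1:ℝ) else 0) = G x i l := by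
    simp [g_symm hG x l i]
  rw [h6] at h5
  have h7 : ∑ j, x j * pd i (fun y => G y j l) x =
      ∑ j, x j * fderiv ℝ (fun y => G y l j) x (EuclideanSpace.single i 1) := by
    refine Finset.sum_congr rfl fun j _ => ?_
    rw [g_symm' hG j l]
    rfl
  rw [h7]
  have h8 : (if l = i then (1:ℝ) else 0) = if i = l then 1 else 0 := by
    simp only [eq_comm]
  rw [h8] at h5
  linarith

end metric

theorem chrn (hC6 : Goal_C6) : CHRn := by
  intro n G hG
  obtain ⟨-, -, -, hinvs, hmul, hinvsym⟩ := hC6 n G hG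
  have hsym := g_symm hG
  have hsym' := g_symm' hG
  -- `G⁻¹ G = 1`
  have hmul' : ∀ x, (G x)⁻¹ * G x = 1 := fun x => mul_eq_one_comm.mp (hmul x)
  have hinv1 : ∀ x m k, ∑ l, (G x)⁻¹ l m * G x l k = if m = k then 1 else 0 := by
    intro x m k
    have h := congrFun (congrFun (hmul' x) m) k
    rw [Matrix.mul_apply, Matrix.one_apply] at h
    rw [← h]
    exact Finset.sum_congr rfl fun l _ => by rw [hinvsym x l m]
  have hinvx : ∀ x l, ∑ m, x m * (G x)⁻¹ m l = x l := by
    intro x l
    have h1 : ∀ m, x m * (G x)⁻¹ m l = ∑ j, (G x)⁻¹ m l * (G x m j * x j) := by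
      intro m
      rw [← Finset.mul_sum, hG.rad, mul_comm]
    calc ∑ m, x m * (G x)⁻¹ m l = ∑ m, ∑ j, (G x)⁻¹ m l * (G x m j * x j) :=
          Finset.sum_congr rfl fun m _ => h1 m
      _ = ∑ j, (∑ m, (G x)⁻¹ m l * G x m j) * x j := by
          rw [Finset.sum_comm]
          refine Finset.sum_congr rfl fun j _ => ?_
          rw [Finset.sum_mul]
          exact Finset.sum_congr rfl fun m _ => by ring
      _ = x l := by
          simp only [hinv1]
          simp
  refine ⟨?_, ?_, ?_, ?_, ?_, ?_⟩
  · intro i j k x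
    unfold Chr
    congr 1
    refine Finset.sum_congr rfl fun l _ => ?_
    rw [hsym' i j]
    ring
  · intro i j k x _
    have h1 : ∀ i j k, ∑ l, Chr G i j l x * G x l k = 1 / 2 * (pd i (fun y => G y j k) x +
        pd j (fun y => G y i k) x - pd k (fun y => G y i j) x) := by
      intro i j k
      unfold Chr
      calc ∑ l, 1 / 2 * (∑ m, (G x)⁻¹ l m * (pd i (fun y => G y j m) x +
            pd j (fun y => G y i m) x - pd m (fun y => G y i j) x)) * G x l k
          = ∑ l, ∑ m, 1 / 2 * ((pd i (fun y => G y j m) x + pd j (fun y => G y i m) x -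
              pd m (fun y => G y i j) x) * ((G x)⁻¹ l m * G x l k)) := by
            refine Finset.sum_congr rfl fun l _ => ?_
            rw [Finset.mul_sum, Finset.sum_mul]
            exact Finset.sum_congr rfl fun m _ => by ring
        _ = ∑ m, 1 / 2 * ((pd i (fun y => G y j m) x + pd j (fun y => G y i m) x -
              pd m (fun y => G y i j) x) * ∑ l, (G x)⁻¹ l m * G x l k) := by
            rw [Finset.sum_comm]
            refine Finset.sum_congr rfl fun m _ => ?_
            rw [Finset.mul_sum, Finset.mul_sum]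
        _ = _ := by
            simp only [hinv1]
            simp
    rw [h1, h1, hsym' k j]
    ring
  · intro i k x hx
    unfold Chr
    calc ∑ j, 1 / 2 * (∑ l, (G x)⁻¹ k l * (pd i (fun y => G y j l) x +
          pd j (fun y => G y i l) x - pd l (fun y => G y i j) x)) * x j
        = ∑ j, ∑ l, 1 / 2 * ((G x)⁻¹ k l * (x j * pd i (fun y => G y j l) x +
            x j * pd j (fun y => G y i l) x - x j * pd l (fun y => G y j i) x)) := by
          refine Finset.sum_congr rfl fun j _ => ?_
          rw [Finset.mul_sum, Finset.sum_mul]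
          refine Finset.sum_congr rfl fun l _ => ?_
          rw [hsym' i j]
          ring
      _ = ∑ l, 1 / 2 * ((G x)⁻¹ k l * (∑ j, x j * pd i (fun y => G y j l) x +
            ∑ j, x j * pd j (fun y => G y i l) x - ∑ j, x j * pd l (fun y => G y j i) x)) := by
          rw [Finset.sum_comm]
          refine Finset.sum_congr rfl fun l _ => ?_
          rw [← Finset.sum_add_distrib, ← Finset.sum_sub_distrib, Finset.mul_sum, Finset.mul_sum]
      _ = 0 := by
          refine Finset.sum_eq_zero fun l _ => ?_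
          rw [rad_der hG i l hx, rad_der hG l i hx, euler (hG.sm i l) hx, hsym x i l]
          have h8 : (if l = i then (1:ℝ) else 0) = if i = l then 1 else 0 := by
            simp only [eq_comm]
          rw [h8]
          ring
  · intro j k x hx
    unfold Chr
    calc ∑ m, x m * (1 / 2 * ∑ l, (G x)⁻¹ m l * (pd j (fun y => G y k l) x +
          pd k (fun y => G y j l) x - pd l (fun y => G y j k) x))
        = ∑ m, ∑ l, 1 / 2 * ((x m * (G x)⁻¹ m l) * (pd j (fun y => G y k l) x +
            pd k (fun y => G y j l) x - pd l (fun y => G y j k) x)) := by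
          refine Finset.sum_congr rfl fun m _ => ?_
          rw [Finset.mul_sum, Finset.mul_sum]
          exact Finset.sum_congr rfl fun l _ => by ring
      _ = ∑ l, 1 / 2 * (x l * (pd j (fun y => G y l k) x +
            pd k (fun y => G y l j) x - pd l (fun y => G y j k) x)) := by
          rw [Finset.sum_comm]
          refine Finset.sum_congr rfl fun l _ => ?_
          rw [← Finset.mul_sum, ← Finset.sum_mul, hinvx, hsym' k l, hsym' j l]
      _ = 1 / 2 * ((∑ l, x l * pd j (fun y => G y l k) x + ∑ l, x l * pd k (fun y => G y l j) x)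
            - ∑ l, x l * pd l (fun y => G y j k) x) := by
          rw [← Finset.sum_add_distrib, ← Finset.sum_sub_distrib, Finset.mul_sum]
          exact Finset.sum_congr rfl fun l _ => by ring
      _ = _ := by
          rw [rad_der hG j k hx, rad_der hG k j hx, euler (hG.sm j k) hx, hsym x k j]
          have h8 : (if k = j then (1:ℝ) else 0) = if j = k then 1 else 0 := by
            simp only [eq_comm]
          rw [h8]
          ring
  · intro i j k r x hr hx
    unfold Chr
    have h1 : G (r • x) = G x := by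
      ext a b
      exact (hG.sm a b).hom r x hr
    rw [h1, mul_left_comm r⁻¹, Finset.mul_sum (a := r⁻¹)]
    refine congrArg _ (Finset.sum_congr rfl fun l _ => ?_)
    rw [pd_smul (hG.sm j l) i hr hx, pd_smul (hG.sm i l) j hr hx, pd_smul (hG.sm i j) l hr hx]
    ring
  · intro i j k
    unfold Chr
    refine ContDiffOn.mul (f := fun _ => (1 / 2 : ℝ)) contDiffOn_const ?_
    have h1 : ∀ l ∈ (Finset.univ : Finset (Fin (n + 1))), ContDiffOn ℝ (⊤ : ℕ∞)
        (fun x => (G x)⁻¹ k l * (pd i (fun y => G y j l) x + pd j (fun y => G y i l) x -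
          pd l (fun y => G y i j) x)) {0}ᶜ := fun l _ =>
      (hinvs k l).cd.mul (((pd_cd (hG.sm j l) i).add (pd_cd (hG.sm i l) j)).sub
        (pd_cd (hG.sm i j) l))
    exact ContDiffOn.sum h1

end Pool.Agent.Helper8.RFn
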