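import Pool.Agent.Helper47.RFn.Mod

/-! # Project RFn, packet MA4: spatial minimum, time derivative, frozen time, compactness -/

set_option autoImplicit false

open Finset Pool.Agent.Helper47.RFn

namespace Pool.Agent.Helper8.RFn.MA4

/-- second order necessary condition at a local minimum -/
theorem snd_nonneg {F F' : ℝ → ℝ} {F2 : ℝ} (h1 : ∀ r, HasDerivAt F (F' r) r)
    (h2 : HasDerivAt F' F2 0) (hmin : ∀ r, F 0 ≤ F r) : F' 0 = 0 ∧ 0 ≤ F2 := by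
  have hlm : IsLocalMin F 0 := Filter.Eventually.of_forall hmin
  have h0 : F' 0 = 0 := hlm.hasDerivAt_eq_zero (h1 0)
  refine ⟨h0, ?_⟩
  by_contra hneg
  push Not at hneg
  have hd : deriv F = F' := funext fun r => (h1 r).deriv
  have hdd : deriv (deriv F) 0 = F2 := by
    rw [hd]
    exact h2.deriv
  have hmax : IsLocalMax F 0 := isLocalMax_of_deriv_deriv_neg (by rw [hdd]; exact hneg)
    (by rw [hd]; exact h0) (h1 0).continuousAt
  have hconst : F =ᶠ[nhds 0] fun _ => F 0 := by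
    filter_upwards [hmax] with r hr
    exact le_antisymm hr (hmin r)
  have h3 : deriv F =ᶠ[nhds 0] fun _ => (0 : ℝ) := by
    have := hconst.deriv
    simpa using this
  have h4 : deriv (deriv F) 0 = 0 := by
    rw [h3.deriv_eq]
    simp
  rw [hdd] at h4
  linarith

variable {n : ℕ} {T : ℝ}

theorem cont_emW : Continuous (emW : ZZ n × TI T → WW n) := by
  unfold emW
  fun_prop

theorem ex_cont {O : Set (WW n)} {F : WW n → ℝ} {f : ZZ n × TI T → ℝ} (h : Ex O F f) : Continuous f := by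
  have h1 : Continuous (fun p : ZZ n × TI T => F (emW p)) :=
    h.cd.continuousOn.comp_continuous cont_emW h.mem
  have h2 : (fun p : ZZ n × TI T => F (emW p)) = f := funext h.eq
  rw [← h2]
  exact h1

theorem ex_der {O : Set (WW n)} {F : WW n → ℝ} {f : ZZ n × TI T → ℝ} (h : Ex O F f) (p : ZZ n × TI T) :
    HasFDerivAt F (fderiv ℝ F (emW p)) (emW p) := by
  have h1 : ContDiffAt ℝ oo F (emW p) := h.cd.contDiffAt (h.op.mem_nhds (h.mem p))
  exact (h1.differentiableAt (by simp)).hasFDerivAt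

theorem sk_zero : Sk (fun _ _ : Ix n => (0 : ℝ)) := fun _ _ => by simp

/-- the derivative of `f` along a curve of MA1 -/
theorem cur_der (hMA2 : Goal_MA2) (η ζ ξ : Ix n → Ix n → ℝ) (hη : Sk η) (hζ : Sk ζ) (hξ : Sk ξ)
    (γ : ℝ → ZZ n) (t : TI T) (hγ : ∀ s, HasDerivAt (fun r => (((γ r).1 : EE n), ((γ r).2 : Ix n → Ix n → ℝ)))
      ((fld η ζ ξ 0 ((γ s).1, (γ s).2, 0)).1, (fld η ζ ξ 0 ((γ s).1, (γ s).2, 0)).2.1) s)
    {f : ZZ n × TI T → ℝ} (hf : IsB f) (s : ℝ) :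
    HasDerivAt (fun r => f (γ r, t)) (derf η ζ ξ 0 f (γ s, t)) s := by
  obtain ⟨O, F, hF⟩ := hf
  rw [((hMA2 n T).1 η ζ ξ 0 hη hζ hξ f O F hF).1 (γ s, t)]
  have h1 := ex_der hF (γ s, t)
  have ha : HasDerivAt (fun r => ((γ r).1 : EE n)) (fld η ζ ξ 0 ((γ s).1, (γ s).2, 0)).1 s :=
    (hasFDerivAt_fst (𝕜 := ℝ) (E := EE n) (F := Ix n → Ix n → ℝ)).comp_hasDerivAt s (hγ s)
  have hb : HasDerivAt (fun r => ((γ r).2 : Ix n → Ix n → ℝ)) (fld η ζ ξ 0 ((γ s).1, (γ s).2, 0)).2.1 s :=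
    (hasFDerivAt_snd (𝕜 := ℝ) (E := EE n) (F := Ix n → Ix n → ℝ)).comp_hasDerivAt s (hγ s)
  have hc := ha.prodMk (hb.prodMk (hasDerivAt_const s (t : ℝ)))
  have hd := h1.comp_hasDerivAt s hc
  have he : (fun r => f (γ r, t)) = F ∘ fun r => (((γ r).1 : EE n), ((γ r).2 : Ix n → Ix n → ℝ), (t : ℝ)) := by
    funext r
    exact (hF.eq (γ r, t)).symm
  rw [he]
  exact hd

theorem fld_time (p : WW n) : fld (fun _ _ => (0 : ℝ)) (fun _ _ => 0) (fun _ _ => 0) 1 p = (0, 0, 1) := by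
  unfold fld
  refine Prod.ext ?_ (Prod.ext ?_ rfl)
  · ext i
    simp
  · funext a b
    simp

theorem ex_frz {O : Set (WW n)} {F : WW n → ℝ} {f : ZZ n × TI T → ℝ} (h : Ex O F f) (t0 : TI T) :
    Ex ((fun q : WW n => (q.1, q.2.1, (t0 : ℝ))) ⁻¹' O) (fun q : WW n => F (q.1, q.2.1, (t0 : ℝ)))
      (fun p : ZZ n × TI T => f (p.1, t0)) := by
  have hcd : ContDiff ℝ oo (fun q : WW n => ((q.1, q.2.1, (t0 : ℝ)) : WW n)) := by fun_prop
  refine ⟨h.op.preimage hcd.continuous, h.cd.comp hcd.contDiffOn (fun q hq => hq), fun p => ?_, fun p => ?_⟩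
  · exact h.mem (p.1, t0)
  · exact h.eq (p.1, t0)

theorem frz_der (hMA2 : Goal_MA2) {f : ZZ n × TI T → ℝ} (hf : IsB f) (t0 : TI T)
    (η ζ ξ : Ix n → Ix n → ℝ) (d : ℝ) (hη : Sk η) (hζ : Sk ζ) (hξ : Sk ξ) (p : ZZ n × TI T) :
    derf η ζ ξ d (fun p : ZZ n × TI T => f (p.1, t0)) p = derf η ζ ξ 0 f (p.1, t0) := by
  obtain ⟨O, F, hF⟩ := hf
  rw [((hMA2 n T).1 η ζ ξ 0 hη hζ hξ f O F hF).1 (p.1, t0)]
  rw [((hMA2 n T).1 η ζ ξ d hη hζ hξ _ _ _ (ex_frz hF t0)).1 p]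
  have h1 := ex_der hF (p.1, t0)
  have h2 : HasFDerivAt (fun q : WW n => ((q.1, q.2.1, (t0 : ℝ)) : WW n))
      ((ContinuousLinearMap.fst ℝ (EE n) ((Ix n → Ix n → ℝ) × ℝ)).prod
        (((ContinuousLinearMap.fst ℝ (Ix n → Ix n → ℝ) ℝ).comp
          (ContinuousLinearMap.snd ℝ (EE n) ((Ix n → Ix n → ℝ) × ℝ))).prod 0)) (emW p) :=
    hasFDerivAt_fst.prodMk ((hasFDerivAt_fst.comp (emW p) hasFDerivAt_snd).prodMk (hasFDerivAt_const _ _))
  have h3 := HasFDerivAt.comp (emW p) (g := F) (f := fun q : WW n => ((q.1, q.2.1, (t0 : ℝ)) : WW n)) h1 h2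
  have h4 : fderiv ℝ (fun q : WW n => F (q.1, q.2.1, (t0 : ℝ))) (emW p) = _ := h3.fderiv
  rw [h4]
  rfl

theorem oo_closed : IsClosed (OO n) := by
  have h : OO n = ⋂ a, ⋂ b, {u : Ix n → Ix n → ℝ | ∑ c, u a c * u b c = if a = b then 1 else 0} := by
    ext u
    simp [OO]
  rw [h]
  refine isClosed_iInter fun a => isClosed_iInter fun b => isClosed_eq ?_ continuous_const
  fun_prop

theorem oo_bdd : OO n ⊆ Metric.closedBall 0 1 := by
  intro u hu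
  rw [mem_closedBall_zero_iff, pi_norm_le_iff_of_nonneg zero_le_one]
  intro a
  rw [pi_norm_le_iff_of_nonneg zero_le_one]
  intro b
  have h1 := hu a a
  rw [if_pos rfl] at h1
  have h2 : u a b * u a b ≤ ∑ c, u a c * u a c :=
    Finset.single_le_sum (f := fun c => u a c * u a c) (fun c _ => mul_self_nonneg _) (Finset.mem_univ b)
  rw [Real.norm_eq_abs, ← sq_le_one_iff_abs_le_one]
  nlinarith

instance oo_cpt : CompactSpace (OO n) :=
  isCompact_iff_compactSpace.mp ((isCompact_closedBall (0 : Ix n → Ix n → ℝ) 1).of_isClosed_subset oo_closed oo_bdd)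

theorem zz_cpt : CompactSpace (ZZ n) := inferInstance

theorem zz_ne : Nonempty (ZZ n) := by
  refine ⟨(⟨EuclideanSpace.single 0 1, ?_⟩, ⟨fun a b => if a = b then 1 else 0, ?_⟩)⟩
  · simp
  · intro a b
    simp

end Pool.Agent.Helper8.RFn.MA4

namespace Pool.Agent.Helper47.RFn

open Pool.Agent.Helper8.RFn.MA4

theorem goal_MA4 (hMA1 : Goal_MA1) (hMA2 : Goal_MA2) : Goal_MA4 := by
  intro n T f hf
  refine ⟨?_, ?_, ?_, ?_, zz_cpt, zz_ne⟩
  · obtain ⟨O, F, hF⟩ := hf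
    exact ex_cont hF
  · intro z t hmin η ζ ξ hη hζ hξ
    obtain ⟨γ, h0, hγ⟩ := (hMA1 n).2 η ζ ξ z hη hζ hξ
    have hdf : IsB (derf η ζ ξ 0 f) := by
      obtain ⟨O, F, hF⟩ := hf
      exact ⟨_, _, ((hMA2 n T).1 η ζ ξ 0 hη hζ hξ f O F hF).2⟩
    have h1 := snd_nonneg (F := fun r => f (γ r, t)) (F' := fun r => derf η ζ ξ 0 f (γ r, t))
      (cur_der hMA2 η ζ ξ hη hζ hξ γ t hγ hf) (cur_der hMA2 η ζ ξ hη hζ hξ γ t hγ hdf 0)
      (fun r => by simp only [h0]; exact hmin _)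
    simp only [h0] at h1
    exact h1
  · intro z t g hg
    obtain ⟨O, F, hF⟩ := hf
    rw [((hMA2 n T).1 _ _ _ 1 sk_zero sk_zero sk_zero f O F hF).1 (z, t), fld_time]
    have h1 := ex_der hF (z, t)
    have h2 : HasDerivAt (fun s : ℝ => (((z.1 : EE n), (z.2 : Ix n → Ix n → ℝ), s) : WW n)) (0, 0, 1) (t : ℝ) :=
      (hasDerivAt_const _ _).prodMk ((hasDerivAt_const _ _).prodMk (hasDerivAt_id _))
    have h3 := HasFDerivAt.comp_hasDerivAt (t : ℝ) (l := F)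
      (f := fun s : ℝ => (((z.1 : EE n), (z.2 : Ix n → Ix n → ℝ), s) : WW n)) h1 h2
    refine h3.congr_of_eventuallyEq ?_
    filter_upwards [Ioo_mem_nhds t.2.1 t.2.2] with s hs
    rw [show s = ((⟨s, hs⟩ : TI T) : ℝ) from rfl, hg]
    exact (hF.eq (z, ⟨s, hs⟩)).symm
  · intro t0
    refine ⟨?_, fun η ζ ξ d hη hζ hξ p => frz_der hMA2 hf t0 η ζ ξ d hη hζ hξ p⟩
    obtain ⟨O, F, hF⟩ := hf
    exact ⟨_, _, ex_frz hF t0⟩

end Pool.Agent.Helper47.RFn
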